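import Pool.Agent.U674.BG.Main

/-!
# First Betti numbers of finite index subgroups of CAT(0) groups without rank one isometries

Let `G` act geometrically on a proper geodesically complete CAT(0) space `X`, and let `o` be a point
of `X`.  Theorem: if `G` contains no rank one isometry of `X`, then there is a constant `C` such that
for every subgroup `N` of finite index and every `R ≥ 2`

  `b₁(N) ≤ C (s(N, R) + [G : N] / log R)`,

where `b₁(N)` is the dimension of the space of homomorphisms from `N` to `ℝ`, and `s(N, R)` is the
number of cosets `gN` such that `gNg⁻¹` contains an element `w ≠ 1` with `d(o, w o) ≤ R`.  If `N` is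
normal and contains no such `w` then `b₁(N) ≤ C [G : N] / log R`.

So a group for which `b₁(N) / (s(N, R) + [G : N] / log R)` is unbounded contains a rank one isometry
in every geometric action on a geodesically complete CAT(0) space: alternative (iii) of rank
rigidity holds.  The starting file `EnergyRankOne` shows that the first `ℓ²`-Betti number of `G`
vanishes, which gives `b₁(N) = o([G : N])`, without any rate, for subgroups with
`s(N, R) = o([G : N])` for all `R`.

Idea of the proof.
(1) The energy bound of the starting file holds with constants which do not depend on the harmonic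
function: there are `κ > 0` and `R₀` such that the energy on the ball of radius `R ≥ R₀` of every
harmonic function `f` on a Cayley graph is at least `κ (f(t) - f(1))² log R` for all generators `t`
(by the maximum principle `f` takes values `≥ max (f(t), f(1))` and values `≤ min (f(t), f(1))`
near every sphere).
(2) The harmonic cocycles of the Schreier graph of `G / N` are a space `W` of dimension `b₁(N)`; each
is the family of increments of a harmonic function on `G`.  For an edge `i = (x, t)` let `ω ∈ W` be
the projection of the unit vector of `i`, so `ω(i) = ‖ω‖² = m`.  If the ball of radius `R / 2`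
embeds in the Schreier graph at `x`, then (1) gives `κ m² log (R / 2) ≤ ‖ω‖² = m`, so
`m ≤ 1 / (κ log (R / 2))`.  For the other edges `m ≤ 1`.  The sum of all `m` is `b₁(N)`.
-/

set_option autoImplicit false

namespace Pool.Agent.Results.MP_ff40e8_al.BettiNumberGrowth

open Set Metric

/-- The inequality of Bruhat and Tits: a complete metric space is CAT(0) if and only if any two
points `p`, `q` have a midpoint `m` such that
`d(x, m)² ≤ (d(x, p)² + d(x, q)²) / 2 - d(p, q)² / 4` for all `x`. -/
def BruhatTits (X : Type*) [MetricSpace X] : Prop := ∀ p q : X, ∃ m : X, ∀ x : X,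
  dist x m ^ 2 ≤ (dist x p ^ 2 + dist x q ^ 2) / 2 - dist p q ^ 2 / 4

/-- Every geodesic segment extends to a geodesic line: for `p ≠ q` there is a line through `p` and
`q` (in a CAT(0) space it contains the unique geodesic segment from `p` to `q`). -/
def GeodesicallyComplete (X : Type*) [MetricSpace X] : Prop :=
  ∀ p q : X, p ≠ q → ∃ c : ℝ → X, Isometry c ∧ c 0 = p ∧ c (dist p q) = q

/-- The line `c` bounds a flat half-plane: there is an isometric embedding `H` of the Euclidean
half-plane `ℝ × [0, ∞)` in `X` which extends `c`. -/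
def BoundsHalfPlane {X : Type*} [MetricSpace X] (c : ℝ → X) : Prop :=
  ∃ H : ℝ × NNReal → X,
    (∀ p q : ℝ × NNReal, dist (H p) (H q) ^ 2 = (p.1 - q.1) ^ 2 + ((p.2 : ℝ) - q.2) ^ 2) ∧
    ∀ t : ℝ, H (t, 0) = c t

/-- `g` is a rank one isometry of `X`: it translates a geodesic line `c` by `τ > 0`, and this axis
does not bound a flat half-plane. -/
def IsRankOne (X : Type*) [MetricSpace X] {G : Type*} [Group G] [MulAction G X] (g : G) : Prop :=
  ∃ (τ : ℝ) (c : ℝ → X), 0 < τ ∧ Isometry c ∧ (∀ t, g • c t = c (t + τ)) ∧ ¬ BoundsHalfPlane c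

/-- The first Betti number of `N`: the dimension of the space of homomorphisms from `N` to `ℝ`. -/
noncomputable def firstBetti {G : Type*} [Group G] (N : Subgroup G) : ℕ :=
  Module.finrank ℝ (Additive N →+ ℝ)

/-- The cosets `x = gN` which are fixed by some `w ≠ 1` with `d(o, w o) ≤ R`, that is, such that
`gNg⁻¹` contains an element `w ≠ 1` with `d(o, w o) ≤ R`. -/
def ShortCosets {X : Type*} [MetricSpace X] {G : Type*} [Group G] [MulAction G X] (o : X)
    (N : Subgroup G) (R : ℝ) : Set (G ⧸ N) :=
  {x | ∃ w : G, w ≠ 1 ∧ dist o (w • o) ≤ R ∧ w • x = x}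

/-- Let `G` act geometrically (by isometries, properly discontinuously, cocompactly) on a proper
geodesically complete CAT(0) space `X` and let `o` be a point of `X`.  Then `G` contains a rank one
isometry of `X`, or there is a constant `C` such that for all subgroups `N` of finite index the
space of homomorphisms from `N` to `ℝ` is finite-dimensional, of dimension `b₁(N)` say, and
* `b₁(N) ≤ C (s + [G : N] / log R)` for all `R ≥ 2`, where `s` is the number of cosets `gN` such that
  `gNg⁻¹` contains an element `w ≠ 1` with `d(o, w o) ≤ R`;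
* `b₁(N) ≤ C [G : N] / log R` for all `R ≥ 2` such that `d(o, w o) > R` for all `w ≠ 1` in `N`, if
  `N` is normal. -/
theorem result {X : Type*} [MetricSpace X] [ProperSpace X] (hX : BruhatTits X)
    (hc : GeodesicallyComplete X)
    {G : Type*} [Group G] [MulAction G X] [IsIsometricSMul G X] [ProperlyDiscontinuousSMul G X]
    (hcc : ∃ K : Set X, IsCompact K ∧ ∀ x : X, ∃ g : G, g • x ∈ K) (o : X) :
    (∃ g : G, IsRankOne X g) ∨
      ∃ C : ℝ, ∀ (N : Subgroup G) [N.FiniteIndex],
        Module.Finite ℝ (Additive N →+ ℝ) ∧
        (∀ R : ℝ, 2 ≤ R →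
          (firstBetti N : ℝ) ≤ C * ((ShortCosets o N R).ncard + N.index / Real.log R)) ∧
        ∀ R : ℝ, 2 ≤ R → N.Normal → (∀ w ∈ N, w ≠ 1 → R < dist o (w • o)) →
          (firstBetti N : ℝ) ≤ C * (N.index / Real.log R) := by
  have hG : Pool.Agent.Y34.HB.Geo X G := ⟨inferInstance, inferInstance, inferInstance, hcc, hX⟩
  by_cases hno : ∀ g : G, ¬ Pool.Agent.Y34.EL.RankOne X g
  · right
    obtain ⟨C, _, h⟩ := Pool.Agent.U674.BG.main hG hc hno o
    refine ⟨C, fun N _ => ⟨(h N).1, (h N).2, fun R hR hN hw => ?_⟩⟩
    have h1 := (h N).2 R hR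
    have h2 : Pool.Agent.U674.BG.Short o N R = ∅ := by
      rw [Set.eq_empty_iff_forall_notMem]
      rintro x ⟨w, hw1, hw2, hw3⟩
      obtain ⟨g, rfl⟩ := QuotientGroup.mk_surjective x
      have h3 : g⁻¹ * (w * g) ∈ N := QuotientGroup.eq.1 (show ((g : G) : G ⧸ N) = (w * g : G) from
        hw3.symm)
      have h4 := hN.conj_mem _ h3 g
      have h5 : g * (g⁻¹ * (w * g)) * g⁻¹ = w := by group
      rw [h5] at h4
      exact absurd hw2 (not_le.2 (hw w h4 hw1))
    rw [h2, Set.ncard_empty, Nat.cast_zero, zero_add] at h1
    exact h1
  · left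
    push Not at hno
    obtain ⟨g, τ, c, hτ, hc, he⟩ := hno
    refine ⟨g, τ, c, hτ, hc.1, hc.2, ?_⟩
    rintro ⟨H, hH⟩
    have : H ∈ Pool.Agent.Y34.HB.HP c := hH
    rw [he] at this
    exact this

end Pool.Agent.Results.MP_ff40e8_al.BettiNumberGrowth
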