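import Pool.Agent.U631.VG.Main

/-!
# Rank rigidity for CAT(0) groups which act on a tree with a convex cocompact vertex group that
# contains a rank one element

Let `G` act geometrically on a geodesically complete proper CAT(0) space `X`, and let `G` act on a
tree `T`.  Let `b` be a vertex of `T` whose stabiliser `H` is convex cocompact: `H` preserves a closed
convex subset `B` of `X` and acts cocompactly on it.  Assume that some element of `H` is a rank one
isometry of `B`, and that `b` is the only vertex fixed by `H`, but `b` is not fixed by `G`. Theorem: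
`G` contains a rank one isometry of `X`, or `X` is a product of two spaces with more than one point,
one of which is a closed convex subset of `B` on which `H` acts cocompactly. Nothing is assumed about
the edge groups.

The theorem applies to all amalgams `G = H *_C H'` with `C ≠ H`, `C ≠ H'` and all HNN extensions of
`H` in which both edge groups are proper subgroups of `H`, if `H` is convex cocompact and contains a
rank one isometry of its convex set (for instance, if `H` is infinite and hyperbolic): rank rigidity
passes from a convex cocompact vertex group to the group.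

The starting file `ConvexCocompactEdgeGroups` has the same conclusion if the edge group is convex
cocompact and contains a rank one isometry of its convex set. Here edge groups may be finite, or
arbitrary subgroups of `H`, and the case in which they contain no powers of rank one elements is the
main case.

Idea of the proof.
(1) Let `t ∉ H` and `A = H ∩ tHt⁻¹`, the stabiliser of the segment from `b` to `t b`. The group `A` is
quasi-convex in `H`. If it contains powers of all conjugates in `H` of the rank one element then `B` is
in a neighbourhood of `t B` (starting file `Pool/Agent/T6/H46/RC/Key.lean`).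
(2) Otherwise there is a rank one element `u` of `H` without powers in `A`. Let `n` be the neighbour of
`b` in the direction of `t b`. Then there is `g` in `H` such that `A ∩ gAg⁻¹` is finite and `g n ≠ n`: if
`u` moves `n` take a large power of `u`, and if `u` fixes `n` take `g = u^a w^b g₁` where `g₁ ∈ H` moves
`n`, `w = g₁ u g₁⁻¹`, and `a`, `b` are large. (The numbers are chosen by north-south dynamics on `B`.)
(3) Let `k` be an element of the stabiliser `tHt⁻¹` of `t b` which moves the direction of `b`. By (2)
the product of the elliptic elements `g` and `k` is hyperbolic, its axis contains the segments from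
`t b` to `b` and from `b` to `g t b`, whose common stabiliser `A ∩ gAg⁻¹` is finite. So `g k` is a rank
one isometry of `X`.
(4) So if `G` contains no rank one isometry of `X` then `B` is at finite distance from all its
translates, and the space splits (starting file `Pool/Agent/T6/H46/RC/Par4.lean`).
-/

set_option autoImplicit false

namespace Pool.Agent.Results.MP_ff40e8_al.ConvexCocompactVertexGroups

open Set Metric

/-- The inequality of Bruhat and Tits: a complete metric space is CAT(0) if and only if any two
points `p`, `q` have a midpoint `m` such that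
`d(x, m)² ≤ (d(x, p)² + d(x, q)²) / 2 - d(p, q)² / 4` for all `x`. -/
def BruhatTits (X : Type) [MetricSpace X] : Prop := ∀ p q : X, ∃ m : X, ∀ x : X,
  dist x m ^ 2 ≤ (dist x p ^ 2 + dist x q ^ 2) / 2 - dist p q ^ 2 / 4

/-- Every geodesic segment extends to a geodesic line: for `p ≠ q` there is a line through `p` and
`q` (in a CAT(0) space it contains the unique geodesic segment from `p` to `q`). -/
def GeodesicallyComplete (X : Type) [MetricSpace X] : Prop :=
  ∀ p q : X, p ≠ q → ∃ c : ℝ → X, Isometry c ∧ c 0 = p ∧ c (dist p q) = q

/-- The line `c` bounds a flat half-plane in the subset `B`: there is an isometric embedding `H`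
of the Euclidean half-plane `ℝ × [0, ∞)` in `X`, with image in `B`, which extends `c`. -/
def BoundsHalfPlaneIn {X : Type} [MetricSpace X] (B : Set X) (c : ℝ → X) : Prop :=
  ∃ H : ℝ × NNReal → X,
    (∀ p q : ℝ × NNReal, dist (H p) (H q) ^ 2 = (p.1 - q.1) ^ 2 + ((p.2 : ℝ) - q.2) ^ 2) ∧
    (∀ p : ℝ × NNReal, H p ∈ B) ∧ ∀ t : ℝ, H (t, 0) = c t

/-- `g` translates a geodesic line `c` in `B` by `τ > 0`, and this axis does not bound a flat
half-plane in `B`.  For `B = univ` this says that `g` is a rank one isometry of `X`, and for an
invariant closed convex set `B` it says that `g` is a rank one isometry of `B`. -/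
def IsRankOneIn {X : Type} [MetricSpace X] {G : Type} [Group G] [MulAction G X] (B : Set X)
    (g : G) : Prop :=
  ∃ (τ : ℝ) (c : ℝ → X), 0 < τ ∧ Isometry c ∧ (∀ t, c t ∈ B) ∧ (∀ t, g • c t = c (t + τ)) ∧
    ¬ BoundsHalfPlaneIn B c

/-- `B` is a nonempty closed convex subset of `X`, preserved by the subgroup `H`, which acts
cocompactly on `B`. -/
def ConvexCocompact {X : Type} [MetricSpace X] {G : Type} [Group G] [MulAction G X]
    (H : Subgroup G) (B : Set X) : Prop :=
  B.Nonempty ∧ IsClosed B ∧
    (∀ p ∈ B, ∀ q ∈ B, ∀ m, dist p m + dist m q = dist p q → m ∈ B) ∧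
    (∀ g ∈ H, ∀ x ∈ B, g • x ∈ B) ∧
    ∃ C : Set X, IsCompact C ∧ ∀ x ∈ B, ∃ g ∈ H, g • x ∈ C

open Pool.Agent.T6.H46.RC

/-- Let `G` act geometrically (by isometries, properly discontinuously, cocompactly) on a proper
geodesically complete CAT(0) space `X`, and let `G` act on a tree `T` by graph automorphisms.  Let
`b` be a vertex of `T` such that
* `b` is the only vertex which is fixed by the stabiliser of `b`, and `b` is not fixed by `G`;
* the stabiliser of `b` acts cocompactly on a closed convex subset `B` of `X`, and contains an
  element which is rank one in `B`.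
Then `G` contains a rank one isometry of `X`, or `X` is isometric to a product `Z × B₀`, where `Z`
and `B₀` have more than one point and `B₀` is a closed convex subset of `B`, on which the stabiliser of
`b` acts cocompactly. -/
theorem result {X : Type} [MetricSpace X] [ProperSpace X] (hX : BruhatTits X)
    (hc : GeodesicallyComplete X)
    {G : Type} [Group G] [MulAction G X] [IsIsometricSMul G X] [ProperlyDiscontinuousSMul G X]
    (hcc : ∃ C : Set X, IsCompact C ∧ ∀ x : X, ∃ g : G, g • x ∈ C)
    {V : Type} {T : SimpleGraph V} (hT : T.IsTree) [MulAction G V]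
    (hact : ∀ (g : G) (u v : V), T.Adj u v → T.Adj (g • u) (g • v))
    {b : V} (hfix : ∀ v : V, (∀ s ∈ MulAction.stabilizer G b, s • v = v) → v = b)
    (hne : ∃ g : G, g • b ≠ b)
    {B : Set X} (hB : ConvexCocompact (MulAction.stabilizer G b) B)
    (hk : ∃ k ∈ MulAction.stabilizer G b, IsRankOneIn B k) :
    (∃ g : G, IsRankOneIn (univ : Set X) g) ∨
    ∃ B₀ : Set X, B₀ ⊆ B ∧ ConvexCocompact (MulAction.stabilizer G b) B₀ ∧ Nontrivial B₀ ∧
      ∃ (Z : Type) (_ : MetricSpace Z) (_ : Nontrivial Z) (e : X ≃ Z × B₀), ∀ x x' : X,
        dist x x' ^ 2 = dist (e x).1 (e x').1 ^ 2 + dist (e x).2 (e x').2 ^ 2 := by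
  have hG : Pool.Agent.Y34.HB.Geo X G := ⟨inferInstance, inferInstance, inferInstance, hcc, hX⟩
  obtain ⟨k, hkK, τ, c, hτ, hci, hcB, hkc, hno⟩ := hk
  obtain ⟨b1, b2, b3, b4, b5⟩ := hB
  have hB' : CC (MulAction.stabilizer G b) B := ⟨b1, b2, b3, b4, b5⟩
  have hax : @Pool.Agent.Y34.HB.Axis B _ (MulAction.stabilizer G b) _ (bact hB') ⟨k, hkK⟩ τ
      (fun t => ⟨c t, hcB t⟩) :=
    ⟨Isometry.of_dist_eq fun s t => hci.dist_eq s t, fun t => Subtype.ext (hkc t)⟩
  have hHP : Pool.Agent.Y34.HB.HP (fun t => (⟨c t, hcB t⟩ : B)) = ∅ := by
    rw [eq_empty_iff_forall_notMem]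
    rintro H ⟨h1, h2⟩
    exact hno ⟨fun z => H z, h1, fun z => (H z).2, fun t => congrArg Subtype.val (h2 t)⟩
  rcases Pool.Agent.U631.VG.main hT hact hG hc hB' ⟨k, hkK⟩ hτ hax hHP
    (fun s => MulAction.mem_stabilizer_iff) hfix hne with
    ⟨g, τ', c', hτ', ⟨hc1, hc2⟩, he⟩ | ⟨B₀, hsub, h₀, hn, h⟩
  · left
    refine ⟨g, τ', c', hτ', hc1, fun _ => mem_univ _, hc2, ?_⟩
    rintro ⟨H, hH1, -, hH2⟩
    have : H ∈ Pool.Agent.Y34.HB.HP c' := ⟨hH1, hH2⟩
    rw [he] at this
    exact this
  · right
    exact ⟨B₀, hsub, ⟨h₀.ne, h₀.closed, h₀.conv, h₀.inv, h₀.cc⟩, hn, h⟩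

end Pool.Agent.Results.MP_ff40e8_al.ConvexCocompactVertexGroups
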