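import Pool.Agent.U674.BG.Quad

/-!
# Rank one isometries are detected on a single sphere

Let `G` act geometrically on a nonempty proper geodesically complete CAT(0) space `X`.  Theorem: the
following are equivalent.

(1) `G` contains a rank one isometry of `X`.
(2) For some point `o` and some `r ≥ 0` there are two points of the sphere of radius `r` around `o`
    which are not joined by a chain on this sphere with at most `42 (r + 1)` steps of length `≤ 1`.
(3) For every point `o` there are `κ > 0` and `r₀` such that every sphere around `o` of radius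
    `r ≥ r₀` contains two points such that all chains on the sphere between them, with steps of
    length `≤ 1`, have at least `κ r²` steps.

So one pair of points on one sphere, with a constant which depends neither on `X` nor on `G`, decides
about alternative (iii) of rank rigidity; and there is nothing between `42 (r + 1)` on all spheres
and a quadratic lower bound.

Idea of the proof.  (2) implies (1): if there is no rank one isometry then any two rays from `o` are
linked on all spheres (theorem `linked` of the starting files, `Pool/Agent/Y34/EL/All.lean`), and by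
geodesic completeness every point is on a ray.  (1) implies (3): let `c` be an axis of a rank one
isometry, and let `y₀, …, yₙ` be a chain on the sphere of radius `r` between two points of `c` on
different sides.  The nearest points of the `yᵢ` on `c` move by at most `1` in each step.  If they
advance by `B` inside the ball of radius `r / 2`, from `y_a` to `y_b`, then the segment from `y_a` to
`y_b` passes near `c` (starting files, `Pool/Agent/T6/H46/RC/Pass.lean`) at a point at distance about
`r / 2` from the sphere, so `b - a ≥ r - const`.  There are `r / (B + 1) - const` such blocks.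
-/

set_option autoImplicit false

namespace Pool.Agent.Results.MP_ff40e8_al.SingleScaleCriterion

open Set Metric

/-- The inequality of Bruhat and Tits: a complete metric space is CAT(0) if and only if any two
points `p`, `q` have a midpoint `m` such that
`d(x, m)² ≤ (d(x, p)² + d(x, q)²) / 2 - d(p, q)² / 4` for all `x`. -/
def BruhatTits (X : Type) [MetricSpace X] : Prop := ∀ p q : X, ∃ m : X, ∀ x : X,
  dist x m ^ 2 ≤ (dist x p ^ 2 + dist x q ^ 2) / 2 - dist p q ^ 2 / 4

/-- Every geodesic segment extends to a geodesic line: for `p ≠ q` there is a line through `p` and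
`q` (in a CAT(0) space it contains the unique geodesic segment from `p` to `q`). -/
def GeodesicallyComplete (X : Type) [MetricSpace X] : Prop :=
  ∀ p q : X, p ≠ q → ∃ c : ℝ → X, Isometry c ∧ c 0 = p ∧ c (dist p q) = q

/-- The line `c` bounds a flat half-plane: there is an isometric embedding `H` of the Euclidean
half-plane `ℝ × [0, ∞)` in `X` which extends `c`. -/
def BoundsHalfPlane {X : Type} [MetricSpace X] (c : ℝ → X) : Prop :=
  ∃ H : ℝ × NNReal → X,
    (∀ p q : ℝ × NNReal, dist (H p) (H q) ^ 2 = (p.1 - q.1) ^ 2 + ((p.2 : ℝ) - q.2) ^ 2) ∧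
    ∀ t : ℝ, H (t, 0) = c t

/-- `g` is a rank one isometry of `X`: it translates a geodesic line `c` by `τ > 0`, and this axis
does not bound a flat half-plane. -/
def IsRankOne (X : Type) [MetricSpace X] {G : Type} [Group G] [MulAction G X] (g : G) : Prop :=
  ∃ (τ : ℝ) (c : ℝ → X), 0 < τ ∧ Isometry c ∧ (∀ t, g • c t = c (t + τ)) ∧ ¬ BoundsHalfPlane c

/-- `y 0, …, y n` is a chain from `p` to `q` on the sphere of radius `r` around `o`, with steps of
length at most one. -/
def SphereChain {X : Type} [MetricSpace X] (o : X) (r : ℝ) (p q : X) (n : ℕ) (y : ℕ → X) : Prop :=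
  y 0 = p ∧ y n = q ∧ (∀ i, i ≤ n → dist o (y i) = r) ∧ ∀ i, i < n → dist (y i) (y (i + 1)) ≤ 1

/-- Let `G` act geometrically (by isometries, properly discontinuously, cocompactly) on a nonempty
proper geodesically complete CAT(0) space `X`.  The following are equivalent: `G` contains a rank one
isometry of `X`; for some `o` and `r` two points of the sphere of radius `r` around `o` are not joined
by a chain of at most `42 (r + 1)` steps on the sphere; for every `o` there are `κ > 0` and `r₀` such
that for all `r ≥ r₀` some two points of the sphere of radius `r` around `o` are only joined by chains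
of at least `κ r²` steps on the sphere. -/
theorem result {X : Type} [MetricSpace X] [ProperSpace X] [Nonempty X] (hX : BruhatTits X)
    (hc : GeodesicallyComplete X)
    {G : Type} [Group G] [MulAction G X] [IsIsometricSMul G X] [ProperlyDiscontinuousSMul G X]
    (hcc : ∃ K : Set X, IsCompact K ∧ ∀ x : X, ∃ g : G, g • x ∈ K) : List.TFAE [
    ∃ g : G, IsRankOne X g,
    ∃ (o : X) (r : ℝ) (p q : X), 0 ≤ r ∧ dist o p = r ∧ dist o q = r ∧
      ∀ (n : ℕ) (y : ℕ → X), (n : ℝ) ≤ 42 * (r + 1) → ¬ SphereChain o r p q n y,
    ∀ o : X, ∃ κ r₀ : ℝ, 0 < κ ∧ ∀ r : ℝ, r₀ ≤ r → ∃ p q : X, dist o p = r ∧ dist o q = r ∧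
      ∀ (n : ℕ) (y : ℕ → X), SphereChain o r p q n y → κ * r ^ 2 ≤ n] := by
  have hG : Pool.Agent.Y34.HB.Geo X G := ⟨inferInstance, inferInstance, inferInstance, hcc, hX⟩
  tfae_have 1 → 3 := by
    rintro ⟨g, τ, c, hτ, hci, hgc, hno⟩ o
    have hHP : Pool.Agent.Y34.HB.HP c = ∅ := by
      rw [Set.eq_empty_iff_forall_notMem]
      rintro H ⟨h1, h2⟩
      exact hno ⟨H, h1, h2⟩
    obtain ⟨R, D, hP⟩ := Pool.Agent.T6.H46.RC.pass_of_axis (K := G) hX hτ ⟨hci, hgc⟩ hHP
    obtain ⟨κ, r₀, hκ, h⟩ := Pool.Agent.U674.BG.quad hX hP o
    refine ⟨κ, r₀, hκ, fun r hr => ?_⟩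
    obtain ⟨p, q, hp, hq, h2⟩ := h r hr
    exact ⟨p, q, hp, hq, fun n y hy => h2 n y hy.1 hy.2.1 hy.2.2.1 hy.2.2.2⟩
  tfae_have 3 → 2 := by
    intro h
    obtain ⟨o⟩ := ‹Nonempty X›
    obtain ⟨κ, r₀, hκ, h1⟩ := h o
    set r : ℝ := max r₀ (max 1 (84 / κ + 1)) with hr
    have hr0 : r₀ ≤ r := le_max_left _ _
    have hr1 : 1 ≤ r := (le_max_left _ _).trans (le_max_right _ _)
    have hr2 : 84 / κ + 1 ≤ r := (le_max_right _ _).trans (le_max_right _ _)
    obtain ⟨p, q, hp, hq, h2⟩ := h1 r hr0
    refine ⟨o, r, p, q, by linarith, hp, hq, fun n y hn hy => ?_⟩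
    have h3 := h2 n y hy
    have h4 : 84 < κ * r := by
      have h5 : 84 / κ < r := by linarith
      rw [div_lt_iff₀ hκ] at h5
      linarith
    nlinarith
  tfae_have 2 → 1 := by
    rintro ⟨o, r, p, q, _, hp, hq, h⟩
    by_contra hcon
    have hno : ∀ g : G, ¬ Pool.Agent.Y34.EL.RankOne X g := by
      rintro g ⟨τ, c, hτ, hcg, he⟩
      refine hcon ⟨g, τ, c, hτ, hcg.1, hcg.2, ?_⟩
      rintro ⟨H, hH⟩
      have : H ∈ Pool.Agent.Y34.HB.HP c := hH
      rw [he] at this
      exact this
    obtain ⟨n, y, h1, h2, h3, h4, h5⟩ :=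
      Pool.Agent.U674.BG.linear hG hc hno o p q r hp hq
    exact h n y h1 ⟨h2, h3, h4, h5⟩
  tfae_finish

end Pool.Agent.Results.MP_ff40e8_al.SingleScaleCriterion
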