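import Pool.Agent.U631.RV.Main

/-!
# Rank rigidity for CAT(0) groups which act on a tree with a virtually abelian segment stabiliser

Let `G` act geometrically on a geodesically complete proper CAT(0) space `X`, and let `G` act on a
tree `T`, such that both half-trees bounded by an edge `e` can be moved off themselves (the condition
on `p` and `q` below; it holds if the stabilisers of both ends of `e` are larger than the pointwise
stabiliser of `e`, so it holds for all nontrivial amalgams and for all HNN extensions in which both
edge groups are proper subgroups of the vertex group). Theorem: if for some `g₀ ∈ G` the pointwise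
stabiliser of `e ∪ g₀ e` is virtually a finitely generated abelian group, then `G` contains a rank
one isometry of `X`, or `X` is isometric to a product `Y × ℝ`, where `Y` has more than one point.

The case `g₀ = 1`: a CAT(0) group which splits as an amalgam or as an HNN extension over a virtually
abelian subgroup (for instance over a finite group, a virtually cyclic group or a crystallographic
group) contains a rank one isometry, or the space has a Euclidean factor. For general `g₀` the edge
groups are arbitrary, and only the intersection of the edge group with one of its conjugates is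
virtually abelian. So alternative (iii) of rank rigidity holds for all these groups if `X` is
irreducible.

The starting file `ConvexCocompactEdgeGroups` treats convex cocompact edge groups which contain a
rank one isometry of their convex set; among the virtually abelian groups these are only the infinite
virtually cyclic ones.

Idea of the proof.
(1) Among all pairs `u e`, `v e` of translates of `e` whose pointwise stabiliser is contained in the
given one take a pair whose stabiliser `L` has minimal rank. Then every pair of translates with
stabiliser contained in a conjugate of `L` has a stabiliser which contains a power of each element of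
this conjugate. The pair can be chosen coherently oriented, `(e, h e)`, with `h` hyperbolic on `T`.
(2) For each `g ∈ G` one of the pairs `(h⁻¹ e, g h e)`, `(h⁻¹ e, g h⁻¹ e)`, `(h e, g h e)` spans a
segment which contains segments `[h^i e, h^(i + 1) e]` and `g [h^j e, h^(j + 1) e]`, so `L` and
`g L g⁻¹` have common powers: `L` is commensurated by `G` up to powers.
(3) If `L` is finite then `h ^ 2` is a rank one isometry of `X` by a theorem of the starting files
(`Pool/Agent/T6/H46/RR/Fin.lean`).
(4) If `L` is infinite let `A` be an abelian subgroup of finite index of `L`, and let `y` be a point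
which is moved by the minimal amount by all elements of `A`. The set of the points `x` such that for
each `a ∈ A` of infinite order there is a line through `x` parallel to the axes of `a` is closed and
convex, it contains `y`, and it is invariant under `G`, because `g A g⁻¹` and `A` have common powers.
By geodesic completeness it is `X`, so `X` is the union of the lines parallel to one line.
-/

set_option autoImplicit false

namespace Pool.Agent.Results.MP_ff40e8_al.VirtuallyAbelianSegments

open Set Metric Filter

/-- The inequality of Bruhat and Tits: a complete metric space is CAT(0) if and only if any two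
points `p`, `q` have a midpoint `m` such that
`d(x, m)² ≤ (d(x, p)² + d(x, q)²) / 2 - d(p, q)² / 4` for all `x`. -/
def BruhatTits (X : Type) [MetricSpace X] : Prop := ∀ p q : X, ∃ m : X, ∀ x : X,
  dist x m ^ 2 ≤ (dist x p ^ 2 + dist x q ^ 2) / 2 - dist p q ^ 2 / 4

/-- Every geodesic segment extends to a geodesic line: for `p ≠ q` there is a line through `p` and
`q` (in a CAT(0) space it contains the unique geodesic segment from `p` to `q`). -/
def GeodesicallyComplete (X : Type) [MetricSpace X] : Prop :=
  ∀ p q : X, p ≠ q → ∃ c : ℝ → X, Isometry c ∧ c 0 = p ∧ c (dist p q) = q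

/-- The line `c` bounds a flat half-plane: there is an isometric embedding `H` of the Euclidean
half-plane `ℝ × [0, ∞)` in `X` which extends `c`. -/
def BoundsHalfPlane {X : Type} [MetricSpace X] (c : ℝ → X) : Prop :=
  ∃ H : ℝ × NNReal → X,
    (∀ p q : ℝ × NNReal, dist (H p) (H q) ^ 2 = (p.1 - q.1) ^ 2 + ((p.2 : ℝ) - q.2) ^ 2) ∧
    ∀ t : ℝ, H (t, 0) = c t

/-- `g` is a rank one isometry of `X`: it translates a geodesic line `c` by `τ > 0`, and this axis
does not bound a flat half-plane. -/
def IsRankOne (X : Type) [MetricSpace X] {G : Type} [Group G] [MulAction G X] (g : G) : Prop :=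
  ∃ (τ : ℝ) (c : ℝ → X), 0 < τ ∧ Isometry c ∧ (∀ t, g • c t = c (t + τ)) ∧ ¬ BoundsHalfPlane c

/-- The pointwise stabiliser of the two edges `{a, b}` and `{g a, g b}` of a tree on which `G` acts,
that is `K ∩ g K g⁻¹`, where `K` is the pointwise stabiliser of the edge `{a, b}`. -/
def PairStabilizer (G : Type) [Group G] {V : Type} [MulAction G V] (a b : V) (g : G) :
    Subgroup G :=
  (MulAction.stabilizer G a ⊓ MulAction.stabilizer G b) ⊓
    (MulAction.stabilizer G (g • a) ⊓ MulAction.stabilizer G (g • b))

/-- The subgroup `H` has a finitely generated abelian subgroup of finite index. -/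
def VirtuallyFGAbelian {G : Type} [Group G] (H : Subgroup G) : Prop :=
  ∃ A : Subgroup G, A ≤ H ∧ A.FG ∧ (∀ x ∈ A, ∀ y ∈ A, x * y = y * x) ∧ A.relIndex H ≠ 0

/-- Let `G` act geometrically (by isometries, properly discontinuously, cocompactly) on a nonempty
proper geodesically complete CAT(0) space `X`, and let `G` act on a tree `T` by graph automorphisms.
Let `{a, b}` be an edge of `T` such that
* there is `p` in `G` such that the segment from `a` to `p a` starts with `a, b` and ends with
  `p b, p a` (for instance any `p` which fixes `b` and not `a`);
* there is `q` in `G` such that the segment from `b` to `q b` starts with `b, a` and ends with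
  `q a, q b` (for instance any `q` which fixes `a` and not `b`).
If for some `g₀` in `G` the pointwise stabiliser of the edges `{a, b}` and `{g₀ a, g₀ b}` has a
finitely generated abelian subgroup of finite index, then `G` contains a rank one isometry of `X`, or
`X` is isometric to a product `Y × ℝ`, where `Y` has more than one point. -/
theorem result {X : Type} [MetricSpace X] [ProperSpace X] [Nonempty X] (hX : BruhatTits X)
    (hc : GeodesicallyComplete X)
    {G : Type} [Group G] [MulAction G X] [IsIsometricSMul G X] [ProperlyDiscontinuousSMul G X]
    (hcc : ∃ C : Set X, IsCompact C ∧ ∀ x : X, ∃ g : G, g • x ∈ C)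
    {V : Type} {T : SimpleGraph V} (hT : T.IsTree) [MulAction G V]
    (hact : ∀ (g : G) (u v : V), T.Adj u v → T.Adj (g • u) (g • v))
    {a b : V} (hab : T.Adj a b)
    (hp : ∃ p : G, T.dist a (p • a) = T.dist b (p • b) + 2)
    (hq : ∃ q : G, T.dist b (q • b) = T.dist a (q • a) + 2)
    (g₀ : G) (hva : VirtuallyFGAbelian (PairStabilizer G a b g₀)) :
    (∃ g : G, IsRankOne X g) ∨
    ∃ (Y : Type) (_ : MetricSpace Y) (_ : Nontrivial Y) (e : X ≃ Y × ℝ), ∀ x x' : X,
      dist x x' ^ 2 = dist (e x).1 (e x').1 ^ 2 + dist (e x).2 (e x').2 ^ 2 := by
  have hG : Pool.Agent.Y34.HB.Geo X G := ⟨inferInstance, inferInstance, inferInstance, hcc, hX⟩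
  obtain ⟨p, hp⟩ := hp
  obtain ⟨q, hq⟩ := hq
  obtain ⟨A, hA, hfg, hcomm, hind⟩ := hva
  have hL : PairStabilizer G a b g₀ = Pool.Agent.U631.RV.LL a b 1 g₀ := by
    unfold PairStabilizer Pool.Agent.U631.RV.LL
    rw [one_smul, one_smul]
  rw [hL] at hA hind
  rcases Pool.Agent.U631.RV.main hT hact hG hc hab (p := p) (q := q)
    (by unfold Pool.Agent.T6.H46.RC.Fac Pool.Agent.T6.H67.TA.D; exact_mod_cast hp)
    (by unfold Pool.Agent.T6.H46.RC.Fac Pool.Agent.T6.H67.TA.D; exact_mod_cast hq)
    g₀ A hA hfg hcomm hind with ⟨g, τ, c, hτ, ⟨hc1, hc2⟩, he⟩ | h
  · left
    refine ⟨g, τ, c, hτ, hc1, hc2, ?_⟩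
    rintro ⟨H, hH⟩
    have : H ∈ Pool.Agent.Y34.HB.HP c := hH
    rw [he] at this
    exact this
  · exact Or.inr h

end Pool.Agent.Results.MP_ff40e8_al.VirtuallyAbelianSegments
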